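import Pool.Agent.helper52.HY.Spec

/-!
# Project hy: (MP_af9036_an), module RMI: the Riemann map of the preimage
-/

set_option autoImplicit false

open Complex Metric Set Filter Topology MeasureTheory
open Pool.Agent.helper98.ILF Pool.Agent.helper16.Multibrot

noncomputable section

namespace HY

theorem RMI (hKO0 : V3.KO0_stmt) (hLR : MPS.LR_stmt) (hLRU : MPS.LRU_stmt) : RMI_stmt := by
  intro n c V φ hn hφ
  have hn1 : 1 ≤ n := by omega
  have hn0 : n ≠ 0 := by omega
  have hUDo : IsOpen UD := isOpen_ball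
  have h0 : (0 : ℂ) ∈ UD := by simp [UD]
  have hpow : ∀ x ∈ UD, x ^ n ∈ UD := by
    intro x hx
    simp only [UD, mem_ball, dist_zero_right] at hx ⊢
    rw [norm_pow]
    exact pow_lt_one₀ (norm_nonneg _) hx hn0
  have hroot : ∀ (ω x : ℂ), ω ^ n = 1 → x ∈ UD → ω * x ∈ UD := by
    intro ω x hω hx
    have h1 : ‖ω‖ = 1 := Complex.norm_eq_one_of_pow_eq_one hω hn0
    simp only [UD, mem_ball, dist_zero_right] at hx ⊢
    rw [norm_mul, h1, one_mul]
    exact hx
  set e : ℂ → ℂ := dslope φ 0 with he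
  have hed : DifferentiableOn ℂ e UD := (Complex.differentiableOn_dslope (hUDo.mem_nhds h0)).2 hφ.dif
  have hee : ∀ y, φ y = y * e y + c := by
    intro y
    have := sub_smul_dslope φ 0 y
    rw [sub_zero, smul_eq_mul, hφ.val] at this
    rw [he, this]; ring
  have hde : deriv φ 0 ≠ 0 := hKO0 φ UD hUDo hφ.dif hφ.inj 0 h0
  have hene : ∀ y ∈ UD, e y ≠ 0 := by
    intro y hy h
    by_cases hy0 : y = 0
    · rw [hy0, he, dslope_same] at h
      exact hde h
    · have h1 : φ y = φ 0 := by rw [hee y, h, hφ.val]; ring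
      exact hy0 (hφ.inj hy h0 h1)
  obtain ⟨v, hv⟩ := IsAlgClosed.exists_pow_nat_eq (e ((0 : ℂ) ^ n)) (by omega : 0 < n)
  have hFd : DifferentiableOn ℂ (fun x => e (x ^ n)) UD := by
    refine hed.comp (DifferentiableOn.pow differentiableOn_id n) ?_
    intro x hx
    exact hpow x hx
  obtain ⟨E, hEd, hE0, hEn⟩ := hLR n UD (fun x => e (x ^ n)) 0 v hn1 hUDo (convex_ball _ _) hFd
    (fun w hw => hene _ (hpow w hw)) h0 hv
  have hEne : ∀ x ∈ UD, E x ≠ 0 := by
    intro x hx h
    have := hEn x hx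
    rw [h, zero_pow hn0] at this
    exact hene _ (hpow x hx) this.symm
  have hEω : ∀ ω : ℂ, ω ^ n = 1 → ∀ x ∈ UD, E (ω * x) = E x := by
    intro ω hω x hx
    have hc : ContinuousOn (fun x => E (ω * x)) UD := by
      refine hEd.continuousOn.comp (by fun_prop) ?_
      intro y hy
      exact hroot ω y hω hy
    have hprec : IsPreconnected UD := (convex_ball (0 : ℂ) 1).isPreconnected
    refine hLRU n UD (fun x => E (ω * x)) E 0 hn1 hprec hc hEd.continuousOn ?_ hEne h0 (by simp) hx
    intro w hw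
    rw [hEn _ (hroot ω w hω hw), hEn w hw, mul_pow, hω, one_mul]
  have hrel : ∀ x ∈ UD, fz n c (x * E x) = φ (x ^ n) := by
    intro x hx
    rw [hee (x ^ n), fz, mul_pow, hEn x hx]
  refine ⟨fun x => x * E x, ⟨?_, ?_, ?_, by simp⟩, hrel⟩
  · exact differentiableOn_id.mul hEd
  · intro x hx x' hx' h
    have h' : x * E x = x' * E x' := h
    have h1 : φ (x ^ n) = φ (x' ^ n) := by rw [← hrel x hx, ← hrel x' hx', h']
    have h2 : x ^ n = x' ^ n := hφ.inj (hpow x hx) (hpow x' hx') h1
    by_cases hx0 : x' = 0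
    · rw [hx0, zero_pow hn0] at h2
      rw [hx0]
      exact pow_eq_zero_iff hn0 |>.1 h2
    · set ω : ℂ := x / x' with hω
      have hω1 : ω ^ n = 1 := by
        rw [hω, div_pow, h2, div_self (pow_ne_zero _ hx0)]
      have hxω : x = ω * x' := by rw [hω]; field_simp
      have h3 : E x = E x' := by rw [hxω]; exact hEω ω hω1 x' hx'
      rw [h3] at h'
      exact mul_right_cancel₀ (hEne x' hx') h'
  · ext z
    constructor
    · rintro ⟨x, hx, rfl⟩
      show fz n c (x * E x) ∈ V
      rw [hrel x hx, ← hφ.img]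
      exact ⟨x ^ n, hpow x hx, rfl⟩
    · intro hz
      have hz' : fz n c z ∈ V := hz
      rw [← hφ.img] at hz'
      obtain ⟨y, hy, hyz⟩ := hz'
      obtain ⟨x, hxy⟩ := IsAlgClosed.exists_pow_nat_eq y (by omega : 0 < n)
      have hx : x ∈ UD := by
        simp only [UD, mem_ball, dist_zero_right] at hy ⊢
        rw [← hxy, norm_pow] at hy
        by_contra hcon
        push Not at hcon
        exact absurd (one_le_pow₀ hcon) (not_le.2 hy)
      have h1 : (x * E x) ^ n = z ^ n := by
        have h2 := hrel x hx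
        rw [hxy, hyz, fz, fz] at h2
        exact add_right_cancel h2
      by_cases hz0 : z = 0
      · refine ⟨x, hx, ?_⟩
        rw [hz0, zero_pow hn0] at h1
        rw [hz0]
        exact pow_eq_zero_iff hn0 |>.1 h1
      · have hne : x * E x ≠ 0 := by
          intro h
          rw [h, zero_pow hn0] at h1
          exact hz0 (pow_eq_zero_iff hn0 |>.1 h1.symm)
        set ω : ℂ := z / (x * E x) with hω
        have hω1 : ω ^ n = 1 := by
          rw [hω, div_pow, h1, div_self (pow_ne_zero _ hz0)]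
        refine ⟨ω * x, hroot ω x hω1 hx, ?_⟩
        show ω * x * E (ω * x) = z
        rw [hEω ω hω1 x hx, mul_assoc, hω, div_mul_cancel₀ _ hne]

end HY
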